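import Mathlib

/-!
# `p`-integral rational numbers and their residues

`Ok p x y` says that the rational `x` is `p`-integral with residue `y` modulo `p`.
`Dv p n x` says that `x` is `p ^ n` times a `p`-integral rational.
-/

set_option autoImplicit false

namespace Pool.Agent.V11304.PI

open Finset

variable {p : ℕ} [hp : Fact p.Prime]

/-- `x` is `p`-integral with residue `y` -/
def Ok (p : ℕ) (x : ℚ) (y : ZMod p) : Prop :=
  ∃ a b : ℤ, (b : ZMod p) ≠ 0 ∧ x = a / b ∧ y * b = a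

lemma ok_int (a : ℤ) : Ok p (a : ℚ) (a : ZMod p) :=
  ⟨a, 1, by simp, by simp, by simp⟩

lemma ok_nat (a : ℕ) : Ok p (a : ℚ) (a : ZMod p) := by
  simpa using ok_int (p := p) (a : ℤ)

lemma ok_one : Ok p 1 1 := by simpa using ok_nat (p := p) 1

lemma ok_zero : Ok p 0 0 := by simpa using ok_nat (p := p) 0

lemma ok_p : Ok p (p : ℚ) 0 := by
  simpa using ok_nat (p := p) p

lemma ne_of_cast {b : ℤ} (h : (b : ZMod p) ≠ 0) : (b : ℚ) ≠ 0 := by
  intro h1
  have : b = 0 := by exact_mod_cast h1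
  rw [this] at h
  simp at h

lemma Ok.add {x x' : ℚ} {y y' : ZMod p} (h : Ok p x y) (h' : Ok p x' y') :
    Ok p (x + x') (y + y') := by
  obtain ⟨a, b, hb, hx, hy⟩ := h
  obtain ⟨a', b', hb', hx', hy'⟩ := h'
  refine ⟨a * b' + a' * b, b * b', ?_, ?_, ?_⟩
  · push_cast
    exact mul_ne_zero hb hb'
  · have h1 := ne_of_cast hb
    have h2 := ne_of_cast hb'
    rw [hx, hx']
    push_cast
    field_simp
  · push_cast
    rw [← hy, ← hy']
    ring

lemma Ok.mul {x x' : ℚ} {y y' : ZMod p} (h : Ok p x y) (h' : Ok p x' y') :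
    Ok p (x * x') (y * y') := by
  obtain ⟨a, b, hb, hx, hy⟩ := h
  obtain ⟨a', b', hb', hx', hy'⟩ := h'
  refine ⟨a * a', b * b', ?_, ?_, ?_⟩
  · push_cast
    exact mul_ne_zero hb hb'
  · rw [hx, hx']
    push_cast
    rw [div_mul_div_comm]
  · push_cast
    rw [← hy, ← hy']
    ring

lemma Ok.neg {x : ℚ} {y : ZMod p} (h : Ok p x y) : Ok p (-x) (-y) := by
  have := (ok_int (p := p) (-1)).mul h
  simpa using this

lemma Ok.sub {x x' : ℚ} {y y' : ZMod p} (h : Ok p x y) (h' : Ok p x' y') :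
    Ok p (x - x') (y - y') := by
  have := h.add h'.neg
  simpa [sub_eq_add_neg] using this

lemma Ok.inv {x : ℚ} {y : ZMod p} (h : Ok p x y) (hy0 : y ≠ 0) : Ok p x⁻¹ y⁻¹ := by
  obtain ⟨a, b, hb, hx, hy⟩ := h
  refine ⟨b, a, ?_, ?_, ?_⟩
  · rw [← hy]
    exact mul_ne_zero hy0 hb
  · rw [hx, inv_div]
  · rw [← hy]
    field_simp

lemma Ok.div {x x' : ℚ} {y y' : ZMod p} (h : Ok p x y) (h' : Ok p x' y') (h0 : y' ≠ 0) :
    Ok p (x / x') (y / y') := by
  rw [div_eq_mul_inv, div_eq_mul_inv]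
  exact h.mul (h'.inv h0)

lemma Ok.pow {x : ℚ} {y : ZMod p} (h : Ok p x y) (n : ℕ) : Ok p (x ^ n) (y ^ n) := by
  induction n with
  | zero => simpa using ok_one
  | succ n ih =>
    rw [pow_succ, pow_succ]
    exact ih.mul h

lemma Ok.sum {ι : Type*} (s : Finset ι) {f : ι → ℚ} {g : ι → ZMod p}
    (h : ∀ i ∈ s, Ok p (f i) (g i)) : Ok p (∑ i ∈ s, f i) (∑ i ∈ s, g i) := by
  classical
  induction s using Finset.induction_on with
  | empty => simpa using ok_zero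
  | insert a s ha ih =>
    rw [sum_insert ha, sum_insert ha]
    exact (h a (mem_insert_self _ _)).add (ih fun i hi => h i (mem_insert_of_mem hi))

lemma Ok.prod {ι : Type*} (s : Finset ι) {f : ι → ℚ} {g : ι → ZMod p}
    (h : ∀ i ∈ s, Ok p (f i) (g i)) : Ok p (∏ i ∈ s, f i) (∏ i ∈ s, g i) := by
  classical
  induction s using Finset.induction_on with
  | empty => simpa using ok_one
  | insert a s ha ih =>
    rw [prod_insert ha, prod_insert ha]
    exact (h a (mem_insert_self _ _)).mul (ih fun i hi => h i (mem_insert_of_mem hi))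

lemma Ok.congr {x : ℚ} {y y' : ZMod p} (h : Ok p x y) (h' : y = y') : Ok p x y' := h' ▸ h

/-- `x` is `p`-integral -/
def In (p : ℕ) (x : ℚ) : Prop := ∃ y : ZMod p, Ok p x y

lemma Ok.is {x : ℚ} {y : ZMod p} (h : Ok p x y) : In p x := ⟨y, h⟩

lemma In.add {x x' : ℚ} (h : In p x) (h' : In p x') : In p (x + x') := by
  obtain ⟨y, h⟩ := h
  obtain ⟨y', h'⟩ := h'
  exact ⟨_, h.add h'⟩

lemma In.sub {x x' : ℚ} (h : In p x) (h' : In p x') : In p (x - x') := by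
  obtain ⟨y, h⟩ := h
  obtain ⟨y', h'⟩ := h'
  exact ⟨_, h.sub h'⟩

lemma In.mul {x x' : ℚ} (h : In p x) (h' : In p x') : In p (x * x') := by
  obtain ⟨y, h⟩ := h
  obtain ⟨y', h'⟩ := h'
  exact ⟨_, h.mul h'⟩

lemma In.neg {x : ℚ} (h : In p x) : In p (-x) := by
  obtain ⟨y, h⟩ := h
  exact ⟨_, h.neg⟩

lemma In.pow {x : ℚ} (h : In p x) (n : ℕ) : In p (x ^ n) := by
  obtain ⟨y, h⟩ := h
  exact ⟨_, h.pow n⟩

lemma in_nat (n : ℕ) : In p (n : ℚ) := (ok_nat n).is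

lemma in_int (n : ℤ) : In p (n : ℚ) := (ok_int n).is

lemma in_one : In p 1 := ok_one.is

lemma in_zero : In p 0 := ok_zero.is

lemma In.sum {ι : Type*} (s : Finset ι) {f : ι → ℚ} (h : ∀ i ∈ s, In p (f i)) :
    In p (∑ i ∈ s, f i) := by
  classical
  induction s using Finset.induction_on with
  | empty => simpa using in_zero
  | insert a s ha ih =>
    rw [sum_insert ha]
    exact (h a (mem_insert_self _ _)).add (ih fun i hi => h i (mem_insert_of_mem hi))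

lemma In.prod {ι : Type*} (s : Finset ι) {f : ι → ℚ} (h : ∀ i ∈ s, In p (f i)) :
    In p (∏ i ∈ s, f i) := by
  classical
  induction s using Finset.induction_on with
  | empty => simpa using in_one
  | insert a s ha ih =>
    rw [prod_insert ha]
    exact (h a (mem_insert_self _ _)).mul (ih fun i hi => h i (mem_insert_of_mem hi))

lemma natCast_ne {n : ℕ} (h0 : 0 < n) (h1 : n < p) : (n : ZMod p) ≠ 0 := by
  intro h
  have := Nat.le_of_dvd h0 ((ZMod.natCast_eq_zero_iff _ _).1 h)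
  omega

lemma in_inv_nat {n : ℕ} (h : (n : ZMod p) ≠ 0) : In p ((n : ℚ)⁻¹) := ((ok_nat n).inv h).is

/-- `x` is `p ^ n` times a `p`-integral number -/
def Dv (p n : ℕ) (x : ℚ) : Prop := ∃ u : ℚ, In p u ∧ x = (p : ℚ) ^ n * u

lemma Dv.add {n : ℕ} {x x' : ℚ} (h : Dv p n x) (h' : Dv p n x') : Dv p n (x + x') := by
  obtain ⟨u, hu, rfl⟩ := h
  obtain ⟨u', hu', rfl⟩ := h'
  exact ⟨u + u', hu.add hu', by ring⟩

lemma Dv.sub {n : ℕ} {x x' : ℚ} (h : Dv p n x) (h' : Dv p n x') : Dv p n (x - x') := by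
  obtain ⟨u, hu, rfl⟩ := h
  obtain ⟨u', hu', rfl⟩ := h'
  exact ⟨u - u', hu.sub hu', by ring⟩

lemma Dv.neg {n : ℕ} {x : ℚ} (h : Dv p n x) : Dv p n (-x) := by
  obtain ⟨u, hu, rfl⟩ := h
  exact ⟨-u, hu.neg, by ring⟩

lemma Dv.mul_in {n : ℕ} {x y : ℚ} (h : Dv p n x) (hy : In p y) : Dv p n (x * y) := by
  obtain ⟨u, hu, rfl⟩ := h
  exact ⟨u * y, hu.mul hy, by ring⟩

lemma Dv.in_mul {n : ℕ} {x y : ℚ} (h : Dv p n x) (hy : In p y) : Dv p n (y * x) := by
  rw [mul_comm]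
  exact h.mul_in hy

lemma Dv.mul {n m : ℕ} {x y : ℚ} (h : Dv p n x) (h' : Dv p m y) : Dv p (n + m) (x * y) := by
  obtain ⟨u, hu, rfl⟩ := h
  obtain ⟨u', hu', rfl⟩ := h'
  exact ⟨u * u', hu.mul hu', by ring⟩

lemma dv_zero (n : ℕ) : Dv p n 0 := ⟨0, in_zero, by ring⟩

lemma Dv.sum {ι : Type*} {n : ℕ} (s : Finset ι) {f : ι → ℚ} (h : ∀ i ∈ s, Dv p n (f i)) :
    Dv p n (∑ i ∈ s, f i) := by
  classical
  induction s using Finset.induction_on with
  | empty => simpa using dv_zero n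
  | insert a s ha ih =>
    rw [sum_insert ha]
    exact (h a (mem_insert_self _ _)).add (ih fun i hi => h i (mem_insert_of_mem hi))

lemma Dv.mono {n m : ℕ} {x : ℚ} (h : Dv p n x) (hm : m ≤ n) : Dv p m x := by
  obtain ⟨u, hu, rfl⟩ := h
  refine ⟨(p : ℚ) ^ (n - m) * u, ((in_nat p).pow _).mul hu, ?_⟩
  rw [← mul_assoc, ← pow_add]
  congr 2
  omega

lemma dv_p (n : ℕ) : Dv p n ((p : ℚ) ^ n) := ⟨1, in_one, by ring⟩

/-- residue zero means divisible by `p` -/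
lemma Ok.dv {x : ℚ} (h : Ok p x 0) : Dv p 1 x := by
  obtain ⟨a, b, hb, hx, hy⟩ := h
  rw [zero_mul] at hy
  obtain ⟨c, rfl⟩ := (ZMod.intCast_zmod_eq_zero_iff_dvd _ _).1 hy.symm
  refine ⟨(c : ℚ) / b, ((ok_int c).div (ok_int b) hb).is, ?_⟩
  rw [hx]
  push_cast
  ring

/-- the conclusion in terms of denominators -/
lemma In.den {x : ℚ} (h : In p x) : ¬ p ∣ x.den := by
  obtain ⟨y, a, b, hb, hx, -⟩ := h
  intro h1
  apply hb
  have h2 := Rat.den_dvd a b
  rw [Rat.divInt_eq_div, ← hx] at h2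
  rw [ZMod.intCast_zmod_eq_zero_iff_dvd]
  exact (Int.natCast_dvd_natCast.2 h1).trans h2

lemma Dv.den {n : ℕ} {x : ℚ} (h : Dv p n x) : ∃ u : ℚ, ¬ p ∣ u.den ∧ x = (p : ℚ) ^ n * u := by
  obtain ⟨u, hu, hx⟩ := h
  exact ⟨u, hu.den, hx⟩

end Pool.Agent.V11304.PI
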