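import Pool.Agent.V11304.PI.Basic

/-!
# Sums of polynomials over a complete residue system, and finite differences
-/

set_option autoImplicit false

namespace Pool.Agent.V11304.PI

open Finset Polynomial

variable {p : ℕ} [hp : Fact p.Prime]

lemma sum_range_eq (f : ZMod p → ZMod p) : ∑ k ∈ range p, f (k : ZMod p) = ∑ x : ZMod p, f x := by
  have : NeZero p := ⟨hp.out.ne_zero⟩
  apply sum_nbij' (fun k : ℕ => (k : ZMod p)) (fun x => x.val)
  · intro k _
    exact mem_univ _
  · intro x _
    exact mem_range.2 (ZMod.val_lt x)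
  · intro k hk
    exact ZMod.val_cast_of_lt (mem_range.1 hk)
  · intro x _
    exact ZMod.natCast_zmod_val x
  · intro k _
    rfl

/-- a polynomial of degree less than `p - 1` has sum zero over the residues -/
lemma poly_sum (P : (ZMod p)[X]) (h : P.natDegree < p - 1) :
    ∑ k ∈ range p, P.eval (k : ZMod p) = 0 := by
  rw [sum_range_eq (fun x => P.eval x)]
  simp only [eval_eq_sum_range]
  rw [sum_comm]
  apply sum_eq_zero
  intro i hi
  rw [mem_range] at hi
  rw [← mul_sum]
  have := FiniteField.sum_pow_lt_card_sub_one (K := ZMod p) i (by rw [ZMod.card]; omega)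
  rw [this, mul_zero]

/-- alternating binomial sums of polynomials of small degree vanish -/
lemma alt_sum (P : ℚ[X]) (n : ℕ) (h : P.natDegree < n) :
    ∑ k ∈ range (n + 1), (-1 : ℚ) ^ k * (n.choose k : ℚ) * P.eval (k : ℚ) = 0 := by
  have h1 : ∀ x : ℚ, P.eval x = ∑ i ∈ range n, P.coeff i * x ^ i := by
    intro x
    exact eval_eq_sum_range' h x
  have h2 := congrFun (fwdDiff_iter_sum_mul_pow_eq_zero (R := ℚ) (n := n) P.coeff) 0
  rw [fwdDiff_iter_eq_sum_shift] at h2
  simp only [Pi.zero_apply, zero_add, nsmul_eq_mul, mul_one] at h2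
  have h3 : ∑ k ∈ range (n + 1), (-1 : ℚ) ^ k * (n.choose k : ℚ) * P.eval (k : ℚ) =
      (-1) ^ n * ∑ x ∈ range (n + 1), ((-1 : ℤ) ^ (n - x) * (n.choose x : ℤ)) •
        ∑ i ∈ range n, P.coeff i * (x : ℚ) ^ i := by
    rw [mul_sum]
    apply sum_congr rfl
    intro k hk
    rw [mem_range] at hk
    rw [← h1, zsmul_eq_mul]
    push_cast
    have h4 : (-1 : ℚ) ^ n * (-1) ^ (n - k) = (-1) ^ k := by
      rw [← pow_add]
      have : n + (n - k) = 2 * (n - k) + k := by omega
      rw [this, pow_add, pow_mul]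
      simp
    rw [← h4]
    ring
  rw [h3, h2, mul_zero]

end Pool.Agent.V11304.PI
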