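import Pool.Agent.V11304.PI.PolySum

/-!
# Sums of `m`-th powers of binomial coefficients modulo `p ^ 3`
-/

set_option autoImplicit false

namespace Pool.Agent.V11304.PI

open Finset Polynomial

variable {p : ℕ} [hp : Fact p.Prime]

section zmod

/-- the product `∏_{j < s} (x + j + 1) / (j + 1)` -/
noncomputable def fb (p : ℕ) [Fact p.Prime] (s : ℕ) (x : ZMod p) : ZMod p :=
  ∏ j ∈ range s, ((x + ((j : ZMod p) + 1)) / ((j : ZMod p) + 1))

/-- harmonic numbers of order two -/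
noncomputable def hb (p : ℕ) [Fact p.Prime] (n : ℕ) : ZMod p :=
  ∑ i ∈ range n, (((i : ZMod p) + 1) ^ 2)⁻¹

lemma succ_ne {i : ℕ} (h : i + 1 < p) : ((i : ZMod p) + 1) ≠ 0 := by
  have := natCast_ne (p := p) (n := i + 1) (by omega) h
  push_cast at this
  exact this

lemma fb_zero {s k : ℕ} (hs : s < p) (hk : k < p) (h : p - s ≤ k) : fb p s (k : ZMod p) = 0 := by
  unfold fb
  apply prod_eq_zero (i := p - k - 1) (mem_range.2 (by omega))
  have : ((k : ZMod p) + (((p - k - 1 : ℕ) : ZMod p) + 1)) = ((p : ℕ) : ZMod p) := by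
    have h1 : ((p : ℕ) : ZMod p) = ((k + ((p - k - 1) + 1) : ℕ) : ZMod p) := by
      congr 1
      omega
    rw [h1]
    push_cast
    ring
  rw [this, ZMod.natCast_self, zero_div]

lemma cast_refl {s k : ℕ} (h : k + s + 1 ≤ p) :
    ((p - s - 1 - k : ℕ) : ZMod p) = -((s : ZMod p) + 1 + k) := by
  have h1 : ((p - s - 1 - k + (s + 1 + k) : ℕ) : ZMod p) = ((p : ℕ) : ZMod p) := by
    congr 1
    omega
  rw [ZMod.natCast_self] at h1
  push_cast at h1
  linear_combination h1

lemma fb_refl {s k : ℕ} (h : k + s + 1 ≤ p) :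
    fb p s ((p - s - 1 - k : ℕ) : ZMod p) = (-1) ^ s * fb p s (k : ZMod p) := by
  unfold fb
  rw [cast_refl h, prod_div_distrib, prod_div_distrib]
  have h1 : ∏ j ∈ range s, (-((s : ZMod p) + 1 + k) + ((j : ZMod p) + 1)) =
      (-1) ^ s * ∏ j ∈ range s, ((k : ZMod p) + ((j : ZMod p) + 1)) := by
    rw [← prod_range_reflect (fun j : ℕ => ((k : ZMod p) + ((j : ZMod p) + 1))) s]
    have h2 : ((-1 : ZMod p)) ^ s = ∏ j ∈ range s, (-1 : ZMod p) := by simp
    rw [h2, ← prod_mul_distrib]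
    apply prod_congr rfl
    intro j hj
    rw [mem_range] at hj
    have h3 : ((s - 1 - j : ℕ) : ZMod p) = (s : ZMod p) - 1 - j := by
      rw [Nat.cast_sub (by omega), Nat.cast_sub (by omega)]
      simp
    rw [h3]
    ring
  rw [h1, mul_div_assoc]

lemma hb_refl {l : ℕ} (h : l + 1 ≤ p) : hb p (p - 1 - l) = hb p (p - 1) - hb p l := by
  have h1 : hb p (p - 1) = hb p (p - 1 - l) + hb p l := by
    unfold hb
    have : p - 1 = (p - 1 - l) + l := by omega
    conv_lhs => rw [this]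
    rw [sum_range_add]
    congr 1
    rw [← sum_range_reflect (fun i : ℕ => ((((i : ℕ) : ZMod p) + 1) ^ 2)⁻¹) l]
    apply sum_congr rfl
    intro i hi
    rw [mem_range] at hi
    congr 1
    have h2 : ((p - 1 - l + i : ℕ) : ZMod p) + 1 = -((l - 1 - i : ℕ) + 1 : ZMod p) := by
      have h3 : ((p - 1 - l + i + 1 + (l - 1 - i + 1) : ℕ) : ZMod p) = ((p : ℕ) : ZMod p) := by
        congr 1
        omega
      rw [ZMod.natCast_self] at h3
      push_cast at h3 ⊢
      linear_combination h3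
    rw [h2]
    ring
  rw [h1]
  ring

lemma hb_add (k s : ℕ) :
    hb p (k + s) = hb p k + ∑ j ∈ range s, (((k : ZMod p) + ((j : ZMod p) + 1)) ^ 2)⁻¹ := by
  unfold hb
  rw [sum_range_add]
  congr 1
  apply sum_congr rfl
  intro j _
  push_cast
  congr 2
  ring

/-- the polynomial with values `fb` -/
noncomputable def fP (p : ℕ) [Fact p.Prime] (S : Finset ℕ) : (ZMod p)[X] :=
  ∏ j ∈ S, (C (((j : ZMod p) + 1)⁻¹) * (X + C ((j : ZMod p) + 1)))

lemma fP_deg (S : Finset ℕ) : (fP p S).natDegree ≤ S.card := by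
  unfold fP
  refine (natDegree_prod_le _ _).trans ?_
  have h : ∀ j ∈ S, (C (((j : ZMod p) + 1)⁻¹) * (X + C ((j : ZMod p) + 1))).natDegree ≤ 1 := by
    intro j _
    refine (natDegree_C_mul_le _ _).trans ?_
    rw [natDegree_X_add_C]
  have := sum_le_card_nsmul S _ 1 h
  simpa using this

lemma fP_eval (S : Finset ℕ) (x : ZMod p) :
    (fP p S).eval x = ∏ j ∈ S, ((x + ((j : ZMod p) + 1)) / ((j : ZMod p) + 1)) := by
  unfold fP
  rw [eval_prod]
  apply prod_congr rfl
  intro j _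
  simp only [eval_mul, eval_C, eval_add, eval_X]
  rw [div_eq_mul_inv, mul_comm]

lemma sum_cut {s : ℕ} (F : ℕ → ZMod p) (h : ∀ k, k < p → p - s ≤ k → F k = 0) :
    ∑ k ∈ range (p - s), F k = ∑ k ∈ range p, F k := by
  apply sum_subset (range_mono (Nat.sub_le _ _))
  intro k hk hk'
  rw [mem_range] at hk hk'
  exact h k hk (by omega)

/-- the sum modulo `p` -/
lemma zmain {s m : ℕ} (hp2 : p ≠ 2) (hm : 3 ≤ m) (hsm : m * s < p - 1) (heven : Even (s * m)) :
    ∑ k ∈ range p, hb p k * fb p s (k : ZMod p) ^ m = 0 := by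
  have hm0 : m ≠ 0 := by omega
  have hs : s + 1 < p := by
    have : s ≤ m * s := Nat.le_mul_of_pos_left s (by omega)
    omega
  set A := ∑ k ∈ range p, hb p k * fb p s (k : ZMod p) ^ m with hA
  have hcutA : ∑ k ∈ range (p - s), hb p k * fb p s (k : ZMod p) ^ m = A := by
    apply sum_cut (fun k => hb p k * fb p s (k : ZMod p) ^ m)
    intro k hk hk'
    rw [fb_zero (by omega) hk hk', zero_pow hm0, mul_zero]
  -- the reflected sum
  have hrefl : A = ∑ k ∈ range (p - s), (hb p (p - 1) - hb p (k + s)) * fb p s (k : ZMod p) ^ m := by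
    rw [← hcutA, ← sum_range_reflect]
    apply sum_congr rfl
    intro k hk
    rw [mem_range] at hk
    rw [fb_refl (by omega)]
    have h1 : p - s - 1 - k = p - 1 - (k + s) := by omega
    rw [h1, hb_refl (by omega), mul_pow, ← pow_mul, heven.neg_one_pow, one_mul]
  have hF0 : ∑ k ∈ range (p - s), fb p s (k : ZMod p) ^ m = 0 := by
    rw [sum_cut (fun k => fb p s (k : ZMod p) ^ m)]
    · have h1 := poly_sum (p := p) (fP p (range s) ^ m) (by
        refine lt_of_le_of_lt (natDegree_pow_le.trans (Nat.mul_le_mul_left m (fP_deg _))) ?_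
        rw [card_range]
        exact hsm)
      simp only [eval_pow, fP_eval] at h1
      exact h1
    · intro k hk hk'
      rw [fb_zero (by omega) hk hk', zero_pow hm0]
  have hG : ∀ j ∈ range s, ∑ k ∈ range (p - s),
      (((k : ZMod p) + ((j : ZMod p) + 1)) ^ 2)⁻¹ * fb p s (k : ZMod p) ^ m = 0 := by
    intro j hj
    have hj' := mem_range.1 hj
    have hj1 : ((j : ZMod p) + 1) ≠ 0 := succ_ne (by omega)
    -- the polynomial
    set E : (ZMod p)[X] := C (((j : ZMod p) + 1)⁻¹) * fP p ((range s).erase j) with hE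
    have hEd : E.natDegree ≤ s := by
      refine (natDegree_C_mul_le _ _).trans ((fP_deg _).trans ?_)
      rw [card_erase_of_mem hj, card_range]
      omega
    have hfE : ∀ x : ZMod p, fb p s x = (x + ((j : ZMod p) + 1)) * E.eval x := by
      intro x
      unfold fb
      rw [← mul_prod_erase _ _ hj, hE, eval_mul, eval_C, fP_eval]
      ring
    have h1 := poly_sum (p := p) (E ^ 2 * fP p (range s) ^ (m - 2)) (by
      refine lt_of_le_of_lt natDegree_mul_le ?_
      have h2 : (E ^ 2).natDegree ≤ 2 * s := natDegree_pow_le.trans (Nat.mul_le_mul_left 2 hEd)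
      have h3 : (fP p (range s) ^ (m - 2)).natDegree ≤ (m - 2) * s := by
        refine natDegree_pow_le.trans (Nat.mul_le_mul_left (m - 2) ?_)
        exact (fP_deg _).trans (by rw [card_range])
      have h4 : 2 * s + (m - 2) * s = m * s := by
        rw [← add_mul]
        congr 1
        omega
      omega)
    simp only [eval_mul, eval_pow, fP_eval] at h1
    rw [← h1, ← sum_cut (s := s)]
    · apply sum_congr rfl
      intro k hk
      rw [mem_range] at hk
      have hkj : ((k : ZMod p) + ((j : ZMod p) + 1)) ≠ 0 := by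
        have := natCast_ne (p := p) (n := k + (j + 1)) (by omega) (by omega)
        push_cast at this
        exact this
      have h5 : fb p s (k : ZMod p) ^ m = fb p s (k : ZMod p) ^ 2 * fb p s (k : ZMod p) ^ (m - 2) := by
        rw [← pow_add]
        congr 1
        omega
      rw [h5]
      nth_rewrite 1 [hfE]
      unfold fb
      field_simp
    · intro k hk hk'
      have h6 : ∏ i ∈ range s, (((k : ZMod p) + ((i : ZMod p) + 1)) / ((i : ZMod p) + 1)) = 0 :=
        fb_zero (by omega) hk hk'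
      rw [h6, zero_pow (by omega), mul_zero]
  -- combine
  have h2A : 2 * A = 0 := by
    have h1 : A = hb p (p - 1) * ∑ k ∈ range (p - s), fb p s (k : ZMod p) ^ m - A -
        ∑ j ∈ range s, ∑ k ∈ range (p - s),
          (((k : ZMod p) + ((j : ZMod p) + 1)) ^ 2)⁻¹ * fb p s (k : ZMod p) ^ m := by
      conv_lhs => rw [hrefl]
      rw [← hcutA, mul_sum, sum_comm, ← sum_sub_distrib, ← sum_sub_distrib]
      apply sum_congr rfl
      intro k _
      rw [hb_add, ← sum_mul]
      ring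
    rw [hF0, sum_eq_zero hG] at h1
    linear_combination h1
  have h2 : (2 : ZMod p) ≠ 0 := by
    have := natCast_ne (p := p) (n := 2) (by omega) (by have := hp.out.two_le; omega)
    exact_mod_cast this
  exact (mul_eq_zero.1 h2A).resolve_left h2

end zmod

section rat

/-- the expansion of `(1 - p x) ^ m` modulo `p ^ 3` -/
lemma pow_expand {x : ℚ} (hx : In p x) (m : ℕ) : ∃ u : ℚ, In p u ∧
    (1 - (p : ℚ) * x) ^ m = 1 - m * p * x + (m.choose 2 : ℚ) * p ^ 2 * x ^ 2 + p ^ 3 * u := by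
  induction m with
  | zero => exact ⟨0, in_zero, by simp⟩
  | succ m ih =>
    obtain ⟨u, hu, h⟩ := ih
    refine ⟨u - (m.choose 2 : ℚ) * x ^ 3 - p * (u * x), ?_, ?_⟩
    · exact (hu.sub ((in_nat _).mul (hx.pow 3))).sub ((in_nat p).mul (hu.mul hx))
    · have h1 : ((m + 1).choose 2 : ℚ) = (m.choose 2 : ℚ) + m := by
        have : (m + 1).choose 2 = m.choose 1 + m.choose 2 := Nat.choose_succ_succ m 1
        rw [this, Nat.choose_one_right]
        push_cast
        ring
      rw [pow_succ, h, h1]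
      push_cast
      ring

/-- `∏_{i < k} (1 - z / (i + 1))` -/
noncomputable def cc (z : ℚ) (k : ℕ) : ℚ := ∏ i ∈ range k, (1 - z / ((i : ℚ) + 1))

/-- harmonic numbers of order two -/
noncomputable def hq (n : ℕ) : ℚ := ∑ i ∈ range n, (((i : ℚ) + 1) ^ 2)⁻¹

lemma ok_succ (i : ℕ) : Ok p ((i : ℚ) + 1) ((i : ZMod p) + 1) := (ok_nat i).add ok_one

lemma ok_hq {n : ℕ} (h : n < p) : Ok p (hq n) (hb p n) := by
  unfold hq hb
  apply Ok.sum
  intro i hi
  rw [mem_range] at hi
  exact ((ok_succ i).pow 2).inv (pow_ne_zero 2 (succ_ne (by omega)))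

lemma ok_cc {z : ℚ} (hz : Ok p z 0) {k : ℕ} (h : k < p) : Ok p (cc z k) 1 := by
  unfold cc
  have h1 := Ok.prod (p := p) (range k) (f := fun i : ℕ => 1 - z / ((i : ℚ) + 1))
    (g := fun _ => 1) (by
      intro i hi
      rw [mem_range] at hi
      have h2 := ok_one.sub (hz.div (ok_succ i) (succ_ne (by omega)))
      simpa using h2)
  simpa using h1

lemma cc_p (k : ℕ) (hk : k ≤ p - 1) : cc (p : ℚ) k = (-1) ^ k * ((p - 1).choose k : ℚ) := by
  have hp1 := hp.out.one_lt
  induction k with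
  | zero => simp [cc]
  | succ k ih =>
    have h1 := ih (by omega)
    unfold cc at h1 ⊢
    rw [prod_range_succ, h1]
    have h2 := Nat.choose_succ_right_eq (p - 1) k
    have h3 : (((p - 1).choose (k + 1) * (k + 1) : ℕ) : ℚ) =
        (((p - 1).choose k * (p - 1 - k) : ℕ) : ℚ) := by rw [h2]
    push_cast [Nat.cast_sub (by omega : k ≤ p - 1), Nat.cast_sub hp1.le] at h3
    have h4 : ((k : ℚ) + 1) ≠ 0 := by positivity
    rw [pow_succ]
    field_simp
    linear_combination h3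

/-- the comparison modulo `p ^ 3` -/
lemma cc_pow {m : ℕ} (hm : (m : ZMod p) ≠ 0) (hp2 : p ≠ 2) (k : ℕ) (hk : k < p) :
    Dv p 3 (cc ((p : ℚ) / m) k ^ m -
      cc (p : ℚ) k * (1 + ((m : ℚ) - 1) / (2 * m) * p ^ 2 * hq k)) := by
  have hmq : (m : ℚ) ≠ 0 := by
    intro h
    have : m = 0 := by exact_mod_cast h
    rw [this] at hm
    simp at hm
  have h2 : (2 : ZMod p) ≠ 0 := by
    have := natCast_ne (p := p) (n := 2) (by omega) (by have := hp.out.two_le; omega)
    exact_mod_cast this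
  have h2' : ((2 : ℕ) : ZMod p) ≠ 0 := by exact_mod_cast h2
  have heps : In p (((m : ℚ) - 1) / (2 * m)) := by
    have h3 := (ok_nat (p := p) 2).mul (ok_nat m)
    have h4 := ((ok_nat (p := p) m).sub ok_one).div h3 (mul_ne_zero h2' hm)
    push_cast at h4
    exact h4.is
  induction k with
  | zero =>
    have : cc ((p : ℚ) / m) 0 ^ m -
      cc (p : ℚ) 0 * (1 + ((m : ℚ) - 1) / (2 * m) * p ^ 2 * hq 0) = 0 := by simp [cc, hq]
    rw [this]
    exact dv_zero 3
  | succ k ih =>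
    obtain ⟨w, hw, hwe⟩ := ih (by omega)
    have hk1 : ((k : ZMod p) + 1) ≠ 0 := succ_ne hk
    have hk1q : ((k : ℚ) + 1) ≠ 0 := by positivity
    have hinv : In p (((k : ℚ) + 1)⁻¹) := ((ok_succ k).inv hk1).is
    have hx : In p ((m : ℚ)⁻¹ * ((k : ℚ) + 1)⁻¹) := (in_inv_nat hm).mul hinv
    obtain ⟨u, hu, hue⟩ := pow_expand hx m
    have hcc : In p (cc (p : ℚ) k) := (ok_cc ok_p (by omega)).is
    have hcm : In p (cc ((p : ℚ) / m) k ^ m) := by
      have hz : Ok p ((p : ℚ) / m) 0 := by simpa using ok_p.div (ok_nat m) hm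
      exact ((ok_cc hz (by omega)).pow m).is
    have hH : In p (hq k) := (ok_hq (by omega)).is
    have hstep1 : cc ((p : ℚ) / m) (k + 1) = cc ((p : ℚ) / m) k * (1 - (p : ℚ) / m / (k + 1)) := by
      unfold cc
      rw [prod_range_succ]
    have hstep2 : cc (p : ℚ) (k + 1) = cc (p : ℚ) k * (1 - (p : ℚ) / (k + 1)) := by
      unfold cc
      rw [prod_range_succ]
    have hstep3 : hq (k + 1) = hq k + (((k : ℚ) + 1) ^ 2)⁻¹ := by
      unfold hq
      rw [sum_range_succ]
    have hfac : (1 - (p : ℚ) / m / (k + 1)) ^ m =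
        1 - p * ((k : ℚ) + 1)⁻¹ + ((m : ℚ) - 1) / (2 * m) * p ^ 2 * (((k : ℚ) + 1)⁻¹) ^ 2 +
          p ^ 3 * u := by
      have e1 : (p : ℚ) / m / (k + 1) = p * ((m : ℚ)⁻¹ * ((k : ℚ) + 1)⁻¹) := by
        field_simp
      rw [e1, hue, Nat.cast_choose_two]
      have e2 : (m : ℚ) * p * ((m : ℚ)⁻¹ * ((k : ℚ) + 1)⁻¹) = p * ((k : ℚ) + 1)⁻¹ := by
        field_simp
      have e3 : (m : ℚ) * (m - 1) / 2 * p ^ 2 * ((m : ℚ)⁻¹ * ((k : ℚ) + 1)⁻¹) ^ 2 =
          ((m : ℚ) - 1) / (2 * m) * p ^ 2 * (((k : ℚ) + 1)⁻¹) ^ 2 := by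
        field_simp
      rw [e2, e3]
    have hC : cc ((p : ℚ) / m) k ^ m =
        cc (p : ℚ) k * (1 + ((m : ℚ) - 1) / (2 * m) * p ^ 2 * hq k) + p ^ 3 * w := by
      linear_combination hwe
    rw [hstep1, hstep2, hstep3, mul_pow, hfac, hC]
    set E := ((m : ℚ) - 1) / (2 * m) with hE
    set v := ((k : ℚ) + 1)⁻¹ with hv
    set B := cc (p : ℚ) k with hB
    set H := hq k with hH'
    have e4 : (((k : ℚ) + 1) ^ 2)⁻¹ = v ^ 2 := by rw [hv, inv_pow]
    have e5 : (p : ℚ) / (k + 1) = p * v := by rw [hv]; exact div_eq_mul_inv _ _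
    rw [e4, e5]
    refine ⟨B * E ^ 2 * p * H * v ^ 2 + B * (1 + E * p ^ 2 * H) * u +
      w * (1 - p * v + E * p ^ 2 * v ^ 2 + p ^ 3 * u) + B * E * v ^ 3, ?_, ?_⟩
    · have hpn : In p (p : ℚ) := in_nat p
      have i1 : In p (B * E ^ 2 * p * H * v ^ 2) :=
        ((((hcc.mul (heps.pow 2)).mul hpn).mul hH).mul (hinv.pow 2))
      have i2 : In p (B * (1 + E * p ^ 2 * H) * u) :=
        (hcc.mul (in_one.add ((heps.mul (hpn.pow 2)).mul hH))).mul hu
      have i3 : In p (w * (1 - p * v + E * p ^ 2 * v ^ 2 + p ^ 3 * u)) :=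
        hw.mul (((in_one.sub (hpn.mul hinv)).add ((heps.mul (hpn.pow 2)).mul (hinv.pow 2))).add
          ((hpn.pow 3).mul hu))
      have i4 : In p (B * E * v ^ 3) := (hcc.mul heps).mul (hinv.pow 3)
      exact ((i1.add i2).add i3).add i4
    · ring

/-- `∏_{j < s} (x + j + 1 - z) / (j + 1 - z)` -/
noncomputable def qq (z : ℚ) (s : ℕ) (x : ℚ) : ℚ :=
  ∏ j ∈ range s, ((x + ((j : ℚ) + 1) - z) / (((j : ℚ) + 1) - z))

lemma ok_qq {z : ℚ} (hz : Ok p z 0) {s : ℕ} (hs : s < p) (k : ℕ) :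
    Ok p (qq z s (k : ℚ)) (fb p s (k : ZMod p)) := by
  unfold qq fb
  apply Ok.prod
  intro j hj
  rw [mem_range] at hj
  have h1 := ((ok_nat (p := p) k).add (ok_succ j)).sub hz
  have h2 := (ok_succ (p := p) j).sub hz
  rw [sub_zero] at h1 h2
  exact h1.div h2 (succ_ne (by omega))

/-- the polynomial with values `qq` -/
noncomputable def qP (z : ℚ) (s : ℕ) : ℚ[X] :=
  ∏ j ∈ range s, (C ((((j : ℚ) + 1) - z)⁻¹) * (X + C (((j : ℚ) + 1) - z)))

lemma qP_deg (z : ℚ) (s : ℕ) : (qP z s).natDegree ≤ s := by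
  unfold qP
  refine (natDegree_prod_le _ _).trans ?_
  have h : ∀ j ∈ range s,
      (C ((((j : ℚ) + 1) - z)⁻¹) * (X + C (((j : ℚ) + 1) - z))).natDegree ≤ 1 := by
    intro j _
    refine (natDegree_C_mul_le _ _).trans ?_
    rw [natDegree_X_add_C]
  have := sum_le_card_nsmul (range s) _ 1 h
  simpa using this

lemma qP_eval (z : ℚ) (s : ℕ) (x : ℚ) : (qP z s).eval x = qq z s x := by
  unfold qP qq
  rw [eval_prod]
  apply prod_congr rfl
  intro j _
  simp only [eval_mul, eval_C, eval_add, eval_X]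
  rw [div_eq_mul_inv]
  ring

/-- the binomial coefficients -/
lemma binom_eq {z : ℚ} {s : ℕ} (hz : ∀ j < s, ((j : ℚ) + 1) - z ≠ 0) (k : ℕ) :
    (-1) ^ k * ((∏ i ∈ range k, (z - (s + 1) - (i : ℚ))) / (k.factorial : ℚ)) =
      cc z k * qq z s (k : ℚ) := by
  have h1 : (-1 : ℚ) ^ k * (∏ i ∈ range k, (z - (s + 1) - (i : ℚ))) =
      ∏ i ∈ range k, ((s : ℚ) + i + 1 - z) := by
    have h2 : (-1 : ℚ) ^ k = ∏ i ∈ range k, (-1 : ℚ) := by simp
    rw [h2, ← prod_mul_distrib]
    apply prod_congr rfl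
    intro i _
    ring
  have h3 : (k.factorial : ℚ) = ∏ i ∈ range k, ((i : ℚ) + 1) := by
    rw [← prod_range_add_one_eq_factorial]
    push_cast
    rfl
  have h4 : cc z k = (∏ i ∈ range k, ((i : ℚ) + 1 - z)) / ∏ i ∈ range k, ((i : ℚ) + 1) := by
    unfold cc
    rw [← prod_div_distrib]
    apply prod_congr rfl
    intro i _
    have : ((i : ℚ) + 1) ≠ 0 := by positivity
    field_simp
  have h5 : qq z s (k : ℚ) = (∏ j ∈ range s, ((k : ℚ) + ((j : ℚ) + 1) - z)) /
      ∏ j ∈ range s, (((j : ℚ) + 1) - z) := by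
    unfold qq
    rw [prod_div_distrib]
  have hD : ∏ j ∈ range s, (((j : ℚ) + 1) - z) ≠ 0 :=
    prod_ne_zero_iff.2 fun j hj => hz j (mem_range.1 hj)
  have hK : ∏ i ∈ range k, ((i : ℚ) + 1) ≠ 0 :=
    prod_ne_zero_iff.2 fun i _ => by positivity
  have h6 : (∏ j ∈ range s, (((j : ℚ) + 1) - z)) * ∏ i ∈ range k, ((s : ℚ) + i + 1 - z) =
      (∏ i ∈ range k, ((i : ℚ) + 1 - z)) * ∏ j ∈ range s, ((k : ℚ) + ((j : ℚ) + 1) - z) := by
    have e1 := prod_range_add (fun l : ℕ => ((l : ℚ) + 1 - z)) s k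
    have e2 := prod_range_add (fun l : ℕ => ((l : ℚ) + 1 - z)) k s
    rw [add_comm k s] at e2
    rw [e1] at e2
    push_cast at e2
    have e3 : ∏ j ∈ range s, ((k : ℚ) + ((j : ℚ) + 1) - z) =
        ∏ j ∈ range s, ((k : ℚ) + (j : ℚ) + 1 - z) := by
      apply prod_congr rfl
      intro j _
      ring
    rw [e3]
    exact e2
  rw [← mul_div_assoc, h1, h3, h4, h5, div_mul_div_comm, div_eq_div_iff hK (mul_ne_zero hK hD)]
  linear_combination (∏ i ∈ range k, ((i : ℚ) + 1)) * h6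

/-- the main congruence -/
theorem main {m s : ℕ} (hp2 : p ≠ 2) (hm3 : 3 ≤ m) (hm : (m : ZMod p) ≠ 0)
    (hsm : m * s < p - 1) (heven : Even (s * m)) :
    Dv p 3 (∑ k ∈ range p, ((-1) ^ k * ((∏ i ∈ range k, ((p : ℚ) / m - (s + 1) - (i : ℚ))) /
      (k.factorial : ℚ))) ^ m) := by
  have hs : s + 1 < p := by
    have : s ≤ m * s := Nat.le_mul_of_pos_left s (by omega)
    omega
  have hp1 := hp.out.one_lt
  have hmq : (m : ℚ) ≠ 0 := by
    have : m ≠ 0 := by omega
    exact_mod_cast this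
  have hz : Ok p ((p : ℚ) / m) 0 := by simpa using ok_p.div (ok_nat m) hm
  have hne : ∀ j < s, ((j : ℚ) + 1) - (p : ℚ) / m ≠ 0 := by
    intro j hj h
    have h1 : ((j : ℚ) + 1) * m = p := by
      field_simp at h
      linear_combination h
    have h2 : (j + 1) * m = p := by exact_mod_cast h1
    have h3 : (j + 1) * m ≤ m * s := by
      rw [mul_comm]
      exact Nat.mul_le_mul_left m (by omega)
    omega
  set z := (p : ℚ) / m with hzd
  have e1 : ∑ k ∈ range p, ((-1) ^ k * ((∏ i ∈ range k, (z - (s + 1) - (i : ℚ))) /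
      (k.factorial : ℚ))) ^ m = ∑ k ∈ range p, cc z k ^ m * qq z s (k : ℚ) ^ m := by
    apply sum_congr rfl
    intro k _
    rw [binom_eq hne k, mul_pow]
  rw [e1]
  set E := ((m : ℚ) - 1) / (2 * m) with hE
  have h2' : ((2 : ℕ) : ZMod p) ≠ 0 := natCast_ne (by omega) (by have := hp.out.two_le; omega)
  have heps : In p E := by
    have h3 := (ok_nat (p := p) 2).mul (ok_nat m)
    have h4 := ((ok_nat (p := p) m).sub ok_one).div h3 (mul_ne_zero h2' hm)
    push_cast at h4
    exact h4.is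
  -- the first part vanishes
  have h1 : ∑ k ∈ range p, cc (p : ℚ) k * qq z s (k : ℚ) ^ m = 0 := by
    have h2 := alt_sum (qP z s ^ m) (p - 1) (by
      refine lt_of_le_of_lt (natDegree_pow_le.trans (Nat.mul_le_mul_left m (qP_deg z s))) hsm)
    have h3 : p - 1 + 1 = p := by omega
    rw [h3] at h2
    rw [← h2]
    apply sum_congr rfl
    intro k hk
    rw [mem_range] at hk
    rw [cc_p k (by omega), eval_pow, qP_eval]
  -- the second part
  have h2 : Ok p (∑ k ∈ range p, cc (p : ℚ) k * hq k * qq z s (k : ℚ) ^ m) 0 := by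
    have h3 := Ok.sum (p := p) (range p)
      (f := fun k : ℕ => cc (p : ℚ) k * hq k * qq z s (k : ℚ) ^ m)
      (g := fun k : ℕ => 1 * hb p k * fb p s (k : ZMod p) ^ m) (by
        intro k hk
        rw [mem_range] at hk
        exact ((ok_cc ok_p hk).mul (ok_hq hk)).mul ((ok_qq hz (by omega) k).pow m))
    refine h3.congr ?_
    simp only [one_mul]
    exact zmain hp2 hm3 hsm heven
  have h3 : Dv p 3 (∑ k ∈ range p, (cc z k ^ m - cc (p : ℚ) k * (1 + E * p ^ 2 * hq k)) *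
      qq z s (k : ℚ) ^ m) := by
    apply Dv.sum
    intro k hk
    rw [mem_range] at hk
    exact (cc_pow hm hp2 k hk).mul_in ((ok_qq hz (by omega) k).pow m).is
  have h4 : Dv p 3 (E * (p : ℚ) ^ 2 *
      ∑ k ∈ range p, cc (p : ℚ) k * hq k * qq z s (k : ℚ) ^ m) := by
    have h5 := ((dv_p (p := p) 2).in_mul heps).mul h2.dv
    exact h5
  have h6 : ∑ k ∈ range p, cc z k ^ m * qq z s (k : ℚ) ^ m =
      ∑ k ∈ range p, (cc z k ^ m - cc (p : ℚ) k * (1 + E * p ^ 2 * hq k)) *
        qq z s (k : ℚ) ^ m +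
      E * (p : ℚ) ^ 2 * ∑ k ∈ range p, cc (p : ℚ) k * hq k * qq z s (k : ℚ) ^ m +
      ∑ k ∈ range p, cc (p : ℚ) k * qq z s (k : ℚ) ^ m := by
    rw [mul_sum, ← sum_add_distrib, ← sum_add_distrib]
    apply sum_congr rfl
    intro k _
    ring
  rw [h6, h1, add_zero]
  exact h3.add h4

end rat

end Pool.Agent.V11304.PI
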